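import Mathlib

/-!
# [H70 DP KER] The kernel lemma: exponential sums over products `d * b`

If `∑_{d ≤ D} |∑_{b < L} e(ξ d b)|^2 > θ D L^2` then `ξ` is within `K/(D L)` of a rational with denominator at most `K = K(θ)`.
-/

namespace Pool.Agent.H70.DP

open Finset

/-- `exp(2πi x)` -/
noncomputable def e1 (x : ℝ) : ℂ := Complex.exp (Complex.I * ((2 * Real.pi * x : ℝ) : ℂ))

theorem norm_e1 (x : ℝ) : ‖e1 x‖ = 1 := by
  unfold e1
  rw [mul_comm]
  exact Complex.norm_exp_ofReal_mul_I _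

theorem e1_add (x y : ℝ) : e1 (x + y) = e1 x * e1 y := by
  unfold e1
  rw [← Complex.exp_add]
  congr 1
  push_cast
  ring

theorem e1_int (z : ℤ) : e1 (z : ℝ) = 1 := by
  unfold e1
  rw [Complex.exp_eq_one_iff]
  refine ⟨z, ?_⟩
  push_cast
  ring

theorem e1_nat_mul (x : ℝ) (b : ℕ) : e1 (x * b) = e1 x ^ b := by
  unfold e1
  rw [← Complex.exp_nat_mul]
  congr 1
  push_cast
  ring

theorem e1_sub_one (y : ℝ) (hy : |y| ≤ 1 / 2) : 4 * |y| ≤ ‖e1 y - 1‖ := by
  unfold e1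
  rw [Complex.norm_exp_I_mul_ofReal_sub_one, Real.norm_eq_abs]
  have h1 : 2 * Real.pi * y / 2 = Real.pi * y := by ring
  rw [h1, abs_mul, abs_two]
  have h2 : |Real.sin (Real.pi * y)| = Real.sin (Real.pi * |y|) := by
    rcases le_total 0 y with h | h
    · rw [abs_of_nonneg h, abs_of_nonneg]
      refine Real.sin_nonneg_of_nonneg_of_le_pi (by positivity) ?_
      rw [abs_of_nonneg h] at hy
      nlinarith [Real.pi_pos]
    · rw [abs_of_nonpos h, mul_neg, Real.sin_neg, abs_of_nonpos]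
      refine Real.sin_nonpos_of_nonpos_of_neg_pi_le (by nlinarith [Real.pi_pos]) ?_
      rw [abs_of_nonpos h] at hy
      nlinarith [Real.pi_pos]
  rw [h2]
  have h3 := Real.mul_le_sin (x := Real.pi * |y|) (by positivity) (by nlinarith [Real.pi_pos])
  have h4 : 2 / Real.pi * (Real.pi * |y|) = 2 * |y| := by
    have := Real.pi_pos.ne'
    field_simp
  rw [h4] at h3
  linarith

theorem geo (x : ℝ) (L : ℕ) (T : ℝ) (hT : 0 < T) (h : T < ‖∑ b ∈ range L, e1 (x * b)‖) :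
    ∃ z : ℤ, |x - z| ≤ 1 / (2 * T) := by
  refine ⟨round x, ?_⟩
  obtain ⟨y, hy⟩ : ∃ y, y = x - round x := ⟨_, rfl⟩
  rw [← hy]
  have hy2 : |y| ≤ 1 / 2 := by rw [hy]; exact abs_sub_round x
  have hxy : x = y + (round x : ℤ) := by rw [hy]; ring
  by_cases h0 : y = 0
  · rw [h0, abs_zero]
    positivity
  have h1 : e1 x = e1 y := by
    rw [hxy, e1_add, e1_int, mul_one]
  have h2 := e1_sub_one y hy2
  have hy0 : 0 < |y| := abs_pos.2 h0
  have h3 : e1 y ≠ 1 := by
    intro h4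
    rw [h4, sub_self, norm_zero] at h2
    linarith
  have h5 : ∑ b ∈ range L, e1 (x * b) = (e1 y ^ L - 1) / (e1 y - 1) := by
    rw [← geom_sum_eq h3]
    refine Finset.sum_congr rfl fun b _ => ?_
    rw [e1_nat_mul, h1]
  rw [h5, norm_div] at h
  have h6 : ‖e1 y ^ L - 1‖ ≤ 2 := by
    calc ‖e1 y ^ L - 1‖ ≤ ‖e1 y ^ L‖ + ‖(1 : ℂ)‖ := norm_sub_le _ _
      _ = 2 := by rw [norm_pow, norm_e1, one_pow, norm_one]; norm_num
  have h7 : 0 < ‖e1 y - 1‖ := lt_of_lt_of_le (by positivity) h2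
  rw [lt_div_iff₀ h7] at h
  rw [le_div_iff₀ (by positivity)]
  nlinarith

theorem ker (θ : ℝ) (h0 : 0 < θ) (h1 : θ ≤ 1) : ∃ K : ℕ, 1 ≤ K ∧ ∀ D L : ℕ, K ≤ D → K * D ≤ L →
    ∀ ξ : ℝ, θ * (D * (L : ℝ) ^ 2) < ∑ d ∈ Icc 1 D, ‖∑ b ∈ range L, e1 (ξ * d * b)‖ ^ 2 →
      ∃ q : ℕ, 1 ≤ q ∧ q ≤ K ∧ ∃ z : ℤ, |q * ξ - z| ≤ K / (D * L) := by
  classical
  obtain ⟨K, hK⟩ : ∃ K, K = ⌈40 / θ ^ 3⌉₊ := ⟨_, rfl⟩
  have hKr : 40 / θ ^ 3 ≤ (K : ℝ) := by rw [hK]; exact Nat.le_ceil _
  have hθ2 : θ ^ 2 ≤ θ := by nlinarith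
  have hθ3 : θ ^ 3 ≤ θ ^ 2 := by nlinarith [sq_nonneg θ, mul_nonneg (sq_nonneg θ) (sub_nonneg.2 h1)]
  have hK3 : 40 ≤ (K : ℝ) * θ ^ 3 := by rwa [div_le_iff₀ (by positivity)] at hKr
  have hK0 : (0 : ℝ) < K := by
    by_contra h
    push Not at h
    nlinarith [pow_pos h0 3]
  have hK2 : 40 ≤ (K : ℝ) * θ ^ 2 := by nlinarith
  have hK1 : 40 ≤ (K : ℝ) * θ := by nlinarith
  have hKK : 40 ≤ (K : ℝ) := by nlinarith
  refine ⟨K, by exact_mod_cast (show (1 : ℝ) ≤ K by linarith), ?_⟩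
  intro D L hD hL ξ hξ
  have hDr : (K : ℝ) ≤ D := by exact_mod_cast hD
  have hLr : (K : ℝ) * D ≤ L := by exact_mod_cast hL
  have hD0 : (0 : ℝ) < D := by linarith
  have hL0 : (0 : ℝ) < L := by nlinarith
  obtain ⟨κ, hκ⟩ : ∃ κ, κ = 1 / (θ * L) := ⟨_, rfl⟩
  have hκ0 : 0 < κ := by rw [hκ]; positivity
  have hκL : κ * (θ * L) = 1 := by rw [hκ]; field_simp
  obtain ⟨S, hS⟩ : ∃ S : Finset ℕ, S = (Icc 1 D).filter fun d : ℕ => ∃ z : ℤ, |ξ * (d : ℝ) - z| ≤ κ := ⟨_, rfl⟩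
  have hSm : ∀ d : ℕ, d ∈ S ↔ d ∈ Icc 1 D ∧ ∃ z : ℤ, |ξ * (d : ℝ) - z| ≤ κ := by
    intro d
    rw [hS, Finset.mem_filter]
  -- many good d
  have hcard : θ * D / 2 < (S.card : ℝ) := by
    have e1' : ∀ d ∈ Icc 1 D, ‖∑ b ∈ range L, e1 (ξ * d * b)‖ ^ 2 ≤
        (if d ∈ S then (L : ℝ) ^ 2 else 0) + θ / 2 * (L : ℝ) ^ 2 := by
      intro d hd
      by_cases hdS : d ∈ S
      · rw [if_pos hdS]
        have h2 : ‖∑ b ∈ range L, e1 (ξ * d * b)‖ ≤ L := by
          calc ‖∑ b ∈ range L, e1 (ξ * d * b)‖ ≤ ∑ b ∈ range L, ‖e1 (ξ * d * b)‖ := norm_sum_le _ _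
            _ = L := by
              rw [Finset.sum_congr rfl fun b _ => norm_e1 _, Finset.sum_const, Finset.card_range,
                nsmul_eq_mul, mul_one]
        have h3 := pow_le_pow_left₀ (norm_nonneg _) h2 2
        have h4 : 0 ≤ θ / 2 * (L : ℝ) ^ 2 := by positivity
        linarith
      · rw [if_neg hdS, zero_add]
        have h2 : ‖∑ b ∈ range L, e1 (ξ * d * b)‖ ≤ θ / 2 * L := by
          by_contra h3
          push Not at h3
          have h4 := geo (ξ * d) L (θ / 2 * L) (by positivity) h3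
          apply hdS
          rw [hSm]
          refine ⟨hd, ?_⟩
          obtain ⟨z, hz⟩ := h4
          refine ⟨z, hz.trans (le_of_eq ?_)⟩
          rw [hκ]
          congr 1
          ring
        have h3 := pow_le_pow_left₀ (norm_nonneg _) h2 2
        refine h3.trans ?_
        rw [mul_pow]
        refine mul_le_mul_of_nonneg_right ?_ (by positivity)
        nlinarith
    have e2 := Finset.sum_le_sum e1'
    rw [Finset.sum_add_distrib, Finset.sum_const, Nat.card_Icc, nsmul_eq_mul, Finset.sum_ite_mem,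
      Finset.sum_const, nsmul_eq_mul] at e2
    have e3 : Icc 1 D ∩ S = S := by
      rw [Finset.inter_eq_right]
      intro d hd
      exact ((hSm d).1 hd).1
    rw [e3] at e2
    have e4 : ((D + 1 - 1 : ℕ) : ℝ) = D := by rw [Nat.add_sub_cancel]
    rw [e4] at e2
    have e5 : θ * (D * (L : ℝ) ^ 2) < S.card * (L : ℝ) ^ 2 + D * (θ / 2 * (L : ℝ) ^ 2) :=
      lt_of_lt_of_le hξ e2
    have e6 : (0 : ℝ) < (L : ℝ) ^ 2 := by positivity
    have e7 : (θ * D / 2) * (L : ℝ) ^ 2 < S.card * (L : ℝ) ^ 2 := by nlinarith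
    exact lt_of_mul_lt_mul_right e7 e6.le
  -- two close good d
  obtain ⟨m, hm⟩ : ∃ m, m = ⌈4 / θ⌉₊ := ⟨_, rfl⟩
  have hm1 : 4 / θ ≤ (m : ℝ) := by rw [hm]; exact Nat.le_ceil _
  have hm2 : (m : ℝ) < 4 / θ + 1 := by rw [hm]; exact Nat.ceil_lt_add_one (by positivity)
  have hm3 : 4 ≤ (m : ℝ) * θ := by rwa [div_le_iff₀ h0] at hm1
  have hm4 : (m : ℝ) * θ < 5 := by
    have : (m : ℝ) * θ < (4 / θ + 1) * θ := mul_lt_mul_of_pos_right hm2 h0
    have h5 : (4 / θ + 1) * θ = 4 + θ := by field_simp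
    linarith
  have hm0 : 0 < m := by
    rcases Nat.eq_zero_or_pos m with h | h
    · rw [h] at hm3
      norm_num at hm3
    · exact h
  have hpig : ∃ d ∈ S, ∃ d' ∈ S, d ≠ d' ∧ d / m = d' / m := by
    refine Finset.exists_ne_map_eq_of_card_lt_of_maps_to (t := range (D / m + 1)) ?_ ?_
    · rw [Finset.card_range]
      have h5 : ((D / m + 1 : ℕ) : ℝ) ≤ D / m + 1 := by
        push_cast
        have := Nat.cast_div_le (α := ℝ) (m := D) (n := m)
        linarith
      have h6 : (D : ℝ) / m ≤ θ * D / 4 := by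
        rw [div_le_iff₀ (by exact_mod_cast hm0)]
        nlinarith
      have h7 : 1 < θ * D / 4 := by nlinarith
      have h8 : ((D / m + 1 : ℕ) : ℝ) < S.card := by linarith
      exact_mod_cast h8
    · intro d hd
      have hd' := (hSm d).1 hd
      rw [Finset.mem_Icc] at hd'
      rw [Finset.coe_range, Set.mem_Iio]
      exact Nat.lt_succ_of_le (Nat.div_le_div_right hd'.1.2)
  obtain ⟨q, hq1, hqm, s, hs⟩ : ∃ q : ℕ, 1 ≤ q ∧ q ≤ m ∧ ∃ s : ℤ, |q * ξ - s| ≤ 2 * κ := by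
    obtain ⟨d, hd, d', hd', hne, hdd⟩ := hpig
    wlog hlt : d < d' generalizing d d'
    · exact this d' hd' d hd (Ne.symm hne) hdd.symm (by omega)
    obtain ⟨_, z, hz⟩ := (hSm d).1 hd
    obtain ⟨_, z', hz'⟩ := (hSm d').1 hd'
    refine ⟨d' - d, by omega, ?_, z' - z, ?_⟩
    · have h5 := Nat.div_add_mod d m
      have h6 := Nat.div_add_mod d' m
      have h7 := Nat.mod_lt d' hm0
      rw [hdd] at h5
      omega
    · rw [Nat.cast_sub hlt.le]
      push_cast
      have h5 : ((d' : ℝ) - d) * ξ - (z' - z) = (ξ * d' - z') - (ξ * d - z) := by ring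
      rw [h5]
      calc |(ξ * d' - z') - (ξ * d - z)| ≤ |ξ * d' - z'| + |ξ * d - z| := abs_sub _ _
        _ ≤ 2 * κ := by linarith
  -- far good d in the same class
  have hqr : (1 : ℝ) ≤ q := by exact_mod_cast hq1
  have hqmr : (q : ℝ) ≤ m := by exact_mod_cast hqm
  have hqθ : (q : ℝ) * θ < 5 := by nlinarith
  obtain ⟨J, hJ⟩ : ∃ J, J = ⌊θ * D / (2 * q)⌋₊ := ⟨_, rfl⟩
  have hJ1 : (J : ℝ) ≤ θ * D / (2 * q) := by rw [hJ]; exact Nat.floor_le (by positivity)
  have hJ2 : θ * D / (2 * q) < J + 1 := by rw [hJ]; exact Nat.lt_floor_add_one _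
  have hJ3 : (q * J : ℕ) < S.card := by
    have h5 : ((q * J : ℕ) : ℝ) < S.card := by
      push_cast
      have h6 : (q : ℝ) * J ≤ θ * D / 2 := by
        calc (q : ℝ) * J ≤ q * (θ * D / (2 * q)) := mul_le_mul_of_nonneg_left hJ1 (by positivity)
          _ = θ * D / 2 := by field_simp
      linarith
    exact_mod_cast h5
  have hfar : ∃ d ∈ S, ∃ j : ℕ, J ≤ j ∧ d + q * j ∈ S := by
    have h5 := Finset.exists_lt_card_fiber_of_mul_lt_card_of_maps_to (s := S) (t := range q)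
      (f := fun d => d % q) (n := J) (fun d _ => Finset.mem_range.2 (Nat.mod_lt _ (by omega)))
      (by rw [Finset.card_range]; exact hJ3)
    obtain ⟨c, _, hc⟩ := h5
    obtain ⟨F, hF⟩ : ∃ F, F = S.filter fun d => d % q = c := ⟨_, rfl⟩
    rw [← hF] at hc
    have hFne : F.Nonempty := by
      rw [← Finset.card_pos]
      omega
    have hFS : ∀ d ∈ F, d ∈ S ∧ d % q = c := fun d hd => by
      rw [hF, Finset.mem_filter] at hd
      exact hd
    have hmin := hFS _ (F.min'_mem hFne)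
    have hmax := hFS _ (F.max'_mem hFne)
    have hle : F.min' hFne ≤ F.max' hFne := F.min'_le _ (F.max'_mem hFne)
    have hmod : F.max' hFne = F.min' hFne + q * ((F.max' hFne - F.min' hFne) / q) := by
      have h6 : q ∣ F.max' hFne - F.min' hFne := by
        refine (Nat.modEq_iff_dvd' hle).1 ?_
        unfold Nat.ModEq
        rw [hmin.2, hmax.2]
      rw [Nat.mul_div_cancel' h6]
      omega
    refine ⟨F.min' hFne, hmin.1, (F.max' hFne - F.min' hFne) / q, ?_, ?_⟩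
    · have h6 : F.card ≤ (F.max' hFne - F.min' hFne) / q + 1 := by
        rw [← Finset.card_range ((F.max' hFne - F.min' hFne) / q + 1)]
        refine Finset.card_le_card_of_injOn (fun d => (d - F.min' hFne) / q) ?_ ?_
        · intro d hd
          rw [Finset.coe_range, Set.mem_Iio]
          have h7 := F.le_max' d hd
          exact Nat.lt_succ_of_le (Nat.div_le_div_right (by omega))
        · intro d hd d' hd' hdd
          have h7 := F.min'_le d hd
          have h8 := F.min'_le d' hd'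
          have h9 : q ∣ d - F.min' hFne := by
            refine (Nat.modEq_iff_dvd' h7).1 ?_
            unfold Nat.ModEq
            rw [hmin.2, (hFS d hd).2]
          have h10 : q ∣ d' - F.min' hFne := by
            refine (Nat.modEq_iff_dvd' h8).1 ?_
            unfold Nat.ModEq
            rw [hmin.2, (hFS d' hd').2]
          have h11 : (d - F.min' hFne) / q = (d' - F.min' hFne) / q := hdd
          have h12 := Nat.mul_div_cancel' h9
          have h13 := Nat.mul_div_cancel' h10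
          rw [h11] at h12
          omega
      omega
    · rw [← hmod]
      exact hmax.1
  obtain ⟨d, hd, j, hJj, hdj⟩ := hfar
  obtain ⟨hdI, z, hz⟩ := (hSm d).1 hd
  obtain ⟨hdjI, z', hz'⟩ := (hSm _).1 hdj
  rw [Finset.mem_Icc] at hdI hdjI
  have hqj : q * j ≤ D := by omega
  have hqjr : (q : ℝ) * j ≤ D := by exact_mod_cast hqj
  have hjr : (J : ℝ) ≤ j := by exact_mod_cast hJj
  -- lower bound for j
  have hjlow : θ * D / (4 * q) ≤ j := by
    have h5 : 1 ≤ θ * D / (4 * q) := by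
      rw [le_div_iff₀ (by positivity), one_mul]
      have h6 : θ ^ 2 * K ≤ θ ^ 2 * D := mul_le_mul_of_nonneg_left hDr (sq_nonneg θ)
      have h7 : θ * (4 * q) ≤ θ * (θ * D) := by
        have h8 : θ * (θ * D) = θ ^ 2 * D := by ring
        linarith
      exact le_of_mul_le_mul_left h7 h0
    have h6 : θ * D / (2 * q) = θ * D / (4 * q) + θ * D / (4 * q) := by
      field_simp
      ring
    linarith
  have hjpos : (0 : ℝ) < j := lt_of_lt_of_le (by positivity) hjlow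
  obtain ⟨β, hβ⟩ : ∃ β, β = q * ξ - s := ⟨_, rfl⟩
  rw [← hβ] at hs
  have hw : |j * β - ((z' - z - j * s : ℤ) : ℝ)| ≤ 2 * κ := by
    push_cast at hz' ⊢
    have h5 : (j : ℝ) * β - (z' - z - j * s) = (ξ * (d + q * j) - z') - (ξ * d - z) := by
      rw [hβ]; ring
    rw [h5]
    calc |(ξ * (d + q * j) - z') - (ξ * d - z)| ≤ |ξ * (d + q * j) - z'| + |ξ * d - z| := abs_sub _ _
      _ ≤ 2 * κ := by linarith
  have hDκ : D * κ ≤ 1 / 40 := by
    have h5 : D * κ * (θ * L) = D := by rw [mul_assoc, hκL, mul_one]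
    have h6 : 40 * D ≤ θ * L := by
      calc 40 * (D : ℝ) ≤ (K * θ) * D := mul_le_mul_of_nonneg_right hK1 hD0.le
        _ = θ * (K * D) := by ring
        _ ≤ θ * L := mul_le_mul_of_nonneg_left hLr h0.le
    have h7 : 0 ≤ D * κ := by positivity
    have h8 : D * κ * (40 * D) ≤ D := (mul_le_mul_of_nonneg_left h6 h7).trans h5.le
    have h9 : (D * κ * 40) * D ≤ 1 * D := by
      have h10 : (D * κ * 40) * D = D * κ * (40 * D) := by ring
      rw [h10, one_mul]
      exact h8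
    have h11 := le_of_mul_le_mul_right h9 hD0
    rw [le_div_iff₀ (by norm_num)]
    exact h11
  have hκ1 : κ ≤ 1 / 40 := by
    have h5 : (1 : ℝ) ≤ D := by linarith
    exact (le_mul_of_one_le_left hκ0.le h5).trans hDκ
  have hjβ : |(j : ℝ) * β| ≤ 1 / 20 := by
    rw [abs_mul, abs_of_pos hjpos]
    have h5 : (j : ℝ) ≤ D := (le_mul_of_one_le_left hjpos.le hqr).trans hqjr
    calc (j : ℝ) * |β| ≤ D * (2 * κ) := mul_le_mul h5 hs (abs_nonneg _) hD0.le
      _ ≤ 1 / 20 := by linarith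
  have hw0 : (z' - z - j * s : ℤ) = 0 := by
    have h5 : |((z' - z - j * s : ℤ) : ℝ)| < 1 := by
      calc |((z' - z - j * s : ℤ) : ℝ)| = |j * β - (j * β - ((z' - z - j * s : ℤ) : ℝ))| := by
            congr 1; ring
        _ ≤ |(j : ℝ) * β| + |j * β - ((z' - z - j * s : ℤ) : ℝ)| := abs_sub _ _
        _ < 1 := by linarith
    have h6 : |(z' - z - j * s : ℤ)| < 1 := by exact_mod_cast h5
    exact Int.abs_lt_one_iff.1 h6
  rw [hw0, Int.cast_zero, sub_zero, abs_mul, abs_of_pos hjpos] at hw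
  refine ⟨q, hq1, ?_, s, ?_⟩
  · have h5 : (q : ℝ) ≤ K := le_of_mul_le_mul_right (by linarith : (q : ℝ) * θ ≤ K * θ) h0
    exact_mod_cast h5
  · rw [← hβ, le_div_iff₀ (by positivity)]
    -- |β| ≤ 2κ/j, j ≥ θ D/(4q)
    have h5 : θ * D * |β| ≤ 8 * q * κ := by
      have h6 : θ * D / (4 * q) * |β| ≤ 2 * κ :=
        (mul_le_mul_of_nonneg_right hjlow (abs_nonneg _)).trans hw
      have h7 : θ * D / (4 * q) * |β| = θ * D * |β| / (4 * q) := by ring
      rw [h7, div_le_iff₀ (by positivity)] at h6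
      linarith
    have h6 : θ * D * |β| * (θ * L) ≤ 8 * q := by
      calc θ * D * |β| * (θ * L) ≤ 8 * q * κ * (θ * L) :=
            mul_le_mul_of_nonneg_right h5 (by positivity)
        _ = 8 * q := by rw [mul_assoc, hκL, mul_one]
    have h7 : θ ^ 3 * (|β| * (D * L)) ≤ 40 := by
      calc θ ^ 3 * (|β| * (D * L)) = θ * (θ * D * |β| * (θ * L)) := by ring
        _ ≤ θ * (8 * q) := mul_le_mul_of_nonneg_left h6 h0.le
        _ ≤ 40 := by linarith
    have h8 : θ ^ 3 * (|β| * (D * L)) ≤ θ ^ 3 * K := by linarith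
    exact le_of_mul_le_mul_left h8 (by positivity)

end Pool.Agent.H70.DP
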